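import Pool.Agent.H.MP_5b422c_co.A

set_option autoImplicit false

namespace Pool.Agent.H.MP_037fd6_co

open Pool.Agent.H.MP_5b422c_co (R Ad sg sg_mono bip2 exists_om)

variable {O : Type} [LinearOrder O]

section generic

variable {S : Type} (le : S → S → Prop)

def Pos (P : (ℕ → O) → S → Prop) : ℕ → ℕ → S → (ℕ → O) → Prop
  | 0, _, s, a => ∀ s', le s' s → P a s'
  | d + 1, p, s, a => ∀ s', le s' s → ∀ α, ∃ s'', le s'' s' ∧ ∃ β, α < β ∧
      Pos P d (p + 1) s'' (Function.update a p β)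

variable {le}

lemma pos_mono (htr : ∀ a b c, le a b → le b c → le a c) (P : (ℕ → O) → S → Prop) (d p : ℕ)
    (s s' : S) (a : ℕ → O) (h : Pos le P d p s a) (hs : le s' s) : Pos le P d p s' a := by
  cases d with
  | zero => exact fun t ht => h t (htr _ _ _ ht hs)
  | succ d => exact fun t ht => h t (htr _ _ _ ht hs)

omit [LinearOrder O] in
lemma chain (hrf : ∀ a, le a a) (htr : ∀ a b c, le a b → le b c → le a c)
    (hcl : ∀ f : ℕ → S, (∀ n, le (f (n + 1)) (f n)) → ∃ s, ∀ n, le s (f n))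
    (Φ : ℕ → S → Prop) (s : S) (h : ∀ q s', le s' s → ∃ s'', le s'' s' ∧ Φ q s'') :
    ∃ t, le t s ∧ ∀ q, ∃ s'', le t s'' ∧ Φ q s'' := by
  have : ∀ q (s' : {s' // le s' s}), ∃ s'' : {s' // le s' s}, le s''.1 s'.1 ∧ Φ q s''.1 := by
    intro q s'
    obtain ⟨t, h1, h2⟩ := h q s'.1 s'.2
    exact ⟨⟨t, htr _ _ _ h1 s'.2⟩, h1, h2⟩
  choose nx h1 h2 using this
  obtain ⟨f, hf0, hf⟩ : ∃ f : ℕ → {s' // le s' s}, f 0 = ⟨s, hrf s⟩ ∧ ∀ n, f (n + 1) = nx n (f n) :=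
    ⟨fun n => Nat.rec ⟨s, hrf s⟩ (fun n t => nx n t) n, rfl, fun _ => rfl⟩
  obtain ⟨t, ht⟩ := hcl (fun n => (f n).1) (fun n => by rw [hf]; exact h1 _ _)
  refine ⟨t, htr _ _ _ (ht 0) (f 0).2, fun q => ⟨(f (q + 1)).1, ht _, ?_⟩⟩
  rw [hf]; exact h2 _ _

lemma extend (hub : ∀ f : ℕ → O, ∃ b, ∀ n, f n < b) (D : ℕ) (a : ℕ → O)
    (ha : ∀ i, i + 1 < D → a i < a (i + 1)) : ∃ x : ℕ → O, StrictMono x ∧ ∀ i < D, x i = a i := by
  have : ∀ o : O, ∃ b, o < b := fun o => (hub (fun _ => o)).imp fun b hb => hb 0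
  choose sc hsc using this
  obtain ⟨x, hx0, hx⟩ : ∃ x : ℕ → O, x 0 = a 0 ∧
      ∀ i, x (i + 1) = if i + 1 < D then a (i + 1) else sc (x i) :=
    ⟨fun n => Nat.rec (a 0) (fun i o => if i + 1 < D then a (i + 1) else sc o) n, rfl, fun _ => rfl⟩
  have h1 : ∀ i < D, x i = a i := by
    intro i hi
    cases i with
    | zero => exact hx0
    | succ i => rw [hx, if_pos hi]
  refine ⟨x, strictMono_nat_of_lt_succ fun i => ?_, h1⟩
  rw [hx]
  split_ifs with h
  · rw [h1 i (by omega)]; exact ha i h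
  · exact hsc _

lemma claim1 (hub : ∀ f : ℕ → O, ∃ b, ∀ n, f n < b)
    (hrf : ∀ a, le a a) (htr : ∀ a b c, le a b → le b c → le a c)
    (hcl : ∀ f : ℕ → S, (∀ n, le (f (n + 1)) (f n)) → ∃ s, ∀ n, le s (f n))
    (W : ℕ → (ℕ → O) → S → Prop) (hW : ∀ x, StrictMono x → ∀ s, ∃ q, W q x s)
    (hanti : ∀ q x s s', W q x s' → le s' s → W q x s) (D : ℕ) (d : ℕ) :
    ∀ p s (a : ℕ → O), p + d = D → (∀ i, i + 1 < p → a i < a (i + 1)) →
      ∃ q s', Pos le (fun a s => ∃ x, StrictMono x ∧ (∀ i < D, x i = a i) ∧ W q x s) d p s' a ∧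
        le s' s := by
  induction d with
  | zero =>
    intro p s a hp ha
    by_contra hc
    push Not at hc
    obtain ⟨t, -, ht⟩ := chain hrf htr hcl
      (fun q s => ¬ ∃ x, StrictMono x ∧ (∀ i < D, x i = a i) ∧ W q x s) s (by
        intro q s' hs'
        by_contra h2
        refine hc q s' (fun s'' h3 => ?_) hs'
        by_contra h4
        exact h2 ⟨s'', h3, h4⟩)
    obtain ⟨x, hx, hxa⟩ := extend hub D a (by rw [← hp]; exact ha)
    obtain ⟨q, hq⟩ := hW x hx t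
    obtain ⟨s'', h1, h2⟩ := ht q
    exact h2 ⟨x, hx, hxa, hanti _ _ _ _ hq h1⟩
  | succ d ih =>
    intro p s a hp ha
    by_contra hc
    push Not at hc
    obtain ⟨t, -, ht⟩ := chain hrf htr hcl
      (fun q s => ∃ α, ∀ s'', le s'' s → ∀ β, α < β →
        ¬ Pos le (fun a s => ∃ x, StrictMono x ∧ (∀ i < D, x i = a i) ∧ W q x s) d (p + 1) s''
          (Function.update a p β)) s (by
        intro q s' hs'
        by_contra h2
        refine hc q s' (fun s'' h3 α => ?_) hs'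
        by_contra h4
        exact h2 ⟨s'', h3, α, fun u hu β hβ h5 => h4 ⟨u, hu, β, hβ, h5⟩⟩)
    choose u hu α hα using ht
    obtain ⟨b, hb⟩ := hub (fun q => max (α q) (a (p - 1)))
    obtain ⟨q, s', h1, h2⟩ := ih (p + 1) t (Function.update a p b) (by omega) (by
      intro i hi
      rcases Nat.lt_succ_iff_lt_or_eq.mp hi with h | h
      · rw [Function.update_of_ne (by omega), Function.update_of_ne (by omega)]
        exact ha i h
      · rw [Function.update_of_ne (by omega), h, Function.update_self]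
        have := lt_of_le_of_lt (le_max_right _ _) (hb 0)
        rwa [show p - 1 = i by omega] at this)
    exact hα q s' (htr _ _ _ h2 (hu q)) b (lt_of_le_of_lt (le_max_left _ _) (hb q)) h1

lemma pos_many (hrf : ∀ a, le a a) (htr : ∀ a b c, le a b → le b c → le a c)
    (P : (ℕ → O) → S → Prop) (r : ℕ) : ∀ d p s a, Pos le P (d + r) p s a →
    ∃ s' a', le s' s ∧ Pos le P d (p + r) s' a' ∧ ∀ i < p, a' i = a i := by
  induction r with
  | zero => intro d p s a h; exact ⟨s, a, hrf s, h, fun _ _ => rfl⟩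
  | succ r ih =>
    intro d p s a h
    obtain ⟨s1, h1, β, -, hβ⟩ := h s (hrf s) (a 0)
    obtain ⟨s2, a', h2, h3, h4⟩ := ih d (p + 1) s1 _ hβ
    refine ⟨s2, a', htr _ _ _ h2 h1, by rwa [show p + (r + 1) = p + 1 + r by ring], fun i hi => ?_⟩
    rw [h4 i (by omega), Function.update_of_ne (by omega)]

lemma claim2 (hrf : ∀ a, le a a) (htr : ∀ a b c, le a b → le b c → le a c)
    (σ : ℕ → ℕ) (hσ : Monotone σ) (P : (ℕ → O) → S → Prop) (D : ℕ) (s0 : S) (a0 : ℕ → O)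
    (h0 : Pos le P D 0 s0 a0) (t : ℕ) : t + σ t + 1 ≤ D →
    ∃ s a b, Pos le P (D - (t + σ t + 1)) (t + σ t + 1) s a ∧ Pos le P (D - t) t s b ∧
      R σ t a b := by
  induction t with
  | zero =>
    intro h
    obtain ⟨s, a, h1, h2, -⟩ := pos_many hrf htr P (0 + σ 0 + 1) (D - (0 + σ 0 + 1)) 0 s0 a0
      (by rwa [Nat.sub_add_cancel h])
    exact ⟨s, a, a0, by simpa using h2, pos_mono htr _ _ _ _ _ _ h0 h1,
      fun t ht => absurd ht (by omega)⟩
  | succ t ih =>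
    intro h
    have hm : σ t ≤ σ (t + 1) := hσ (Nat.le_succ t)
    obtain ⟨s, a, b, ha, hb, hR⟩ := ih (by omega)
    rw [show D - t = (D - (t + 1)) + 1 by omega] at hb
    rw [show D - (t + σ t + 1) = (D - (t + 1 + σ (t + 1) + 1) + (σ (t + 1) - σ t)) + 1 by omega] at ha
    obtain ⟨s1, hs1, β, hβ1, hβ⟩ := hb s (hrf s) (a (t + σ t))
    obtain ⟨s2, hs2, γ, hγ1, hγ⟩ := ha s1 hs1 β
    obtain ⟨s3, a', hs3, h1, h2⟩ := pos_many hrf htr P _ _ _ _ _ hγ
    refine ⟨s3, a', _,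
      by rwa [show t + σ t + 1 + 1 + (σ (t + 1) - σ t) = t + 1 + σ (t + 1) + 1 by omega] at h1,
      pos_mono htr _ _ _ _ _ _ hβ (htr _ _ _ hs3 hs2), fun u hu => ?_⟩
    rcases Nat.lt_succ_iff_lt_or_eq.mp hu with hu' | rfl
    · have hm' : σ u ≤ σ t := hσ hu'.le
      rw [h2 _ (by omega), h2 _ (by omega), Function.update_of_ne (by omega),
        Function.update_of_ne (by omega), Function.update_of_ne (by omega)]
      exact hR u hu'
    · rw [h2 _ (by omega), h2 _ (by omega), Function.update_of_ne (by omega),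
        Function.update_self, Function.update_self]
      exact ⟨hβ1, hγ1⟩

lemma cover (hub : ∀ f : ℕ → O, ∃ b, ∀ n, f n < b) (a0 : ℕ → O) (s0 : S)
    (hrf : ∀ a, le a a) (htr : ∀ a b c, le a b → le b c → le a c)
    (hcl : ∀ f : ℕ → S, (∀ n, le (f (n + 1)) (f n)) → ∃ s, ∀ n, le s (f n))
    (W : ℕ → (ℕ → O) → S → Prop) (hW : ∀ x, StrictMono x → ∀ s, ∃ q, W q x s)
    (hanti : ∀ q x s s', W q x s' → le s' s → W q x s) (m : ℕ) :
    ∃ q s, ∀ s', le s' s → ∃ x, W q x s' ∧ ∀ s'', le s'' s → ∃ y, W q y s'' ∧ Ad m x y := by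
  obtain ⟨q, s1, h1, -⟩ := claim1 hub hrf htr hcl W hW hanti (m + sg m + 1) (m + sg m + 1) 0 s0 a0
    (by omega) (fun i hi => absurd hi (by omega))
  obtain ⟨s, a, b, ha, hb, hR⟩ := claim2 hrf htr sg sg_mono _ _ s1 a0 h1 m le_rfl
  rw [show m + sg m + 1 - m = 0 + (sg m + 1) by omega] at hb
  obtain ⟨s2, b', hs2, hb', hbb⟩ := pos_many hrf htr _ _ _ _ _ _ hb
  rw [Nat.sub_self] at ha
  refine ⟨q, s2, fun s' hs' => ?_⟩
  obtain ⟨x, hx, hxa, hWx⟩ := ha s' (htr _ _ _ hs' hs2)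
  refine ⟨x, hWx, fun s'' hs'' => ?_⟩
  obtain ⟨y, hy, hyb, hWy⟩ := hb' s'' hs''
  refine ⟨y, hWy, hx, hy, Or.inl fun t ht => ?_⟩
  have hm : sg t ≤ sg m := sg_mono ht.le
  rw [hxa _ (by omega), hxa _ (by omega), hyb _ (by omega), hbb _ ht]
  exact hR t ht

end generic

end Pool.Agent.H.MP_037fd6_co
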