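import Pool.Agent.H.MP_037fd6_co.A

set_option autoImplicit false

namespace Pool.Agent.H.MP_037fd6_co

open Pool.Agent.H.MP_5b422c_co (R Ad sg sg_mono bip2 exists_om)
open Cardinal

inductive T (O : Type) : Type
  | nil : T O
  | cons (b : T O) (g : O) (i : ℕ) (x : ℕ → O) : T O
  | node (x : ℕ → O) (g : O) (ch : ℕ → T O) : T O

abbrev Rec (O : Type) := T O × O × ℕ × (ℕ → O)

variable {O : Type}

def Past : T O → Set (Rec O)
  | T.nil => ∅
  | T.cons b g i x => insert (b, g, i, x) (Past b)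
  | T.node _ _ ch => ⋃ i, Past (ch i)

def lab (a0 : ℕ → O) : T O → ℕ → O
  | T.nil => a0
  | T.cons _ _ _ _ => a0
  | T.node x _ _ => x

noncomputable def rk (ub : (ℕ → O) → O) (o : O) : T O → O
  | T.nil => o
  | T.cons b g _ _ => ub (fun n => if n = 0 then rk ub o b else g)
  | T.node _ _ ch => ub (fun i => rk ub o (ch i))

def Func (A : Set (Rec O)) : Prop :=
  ∀ r ∈ A, ∀ r' ∈ A, (r.1 = r'.1 ∨ (r.2.1 = r'.2.1 ∧ r.2.2.1 = r'.2.2.1)) → r = r'

def Valid (x : ℕ → O) (g : O) (ch : ℕ → T O) : Prop :=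
  Func (Past (T.node x g ch)) ∧
    ∀ i, Past (ch i) ⊆ Past (ch (i + 1)) ∧ (ch i, g, i, x) ∈ Past (ch (i + 1))

lemma func_union (A : ℕ → Set (Rec O)) (hm : ∀ n, A n ⊆ A (n + 1)) (hf : ∀ n, Func (A n)) :
    Func (⋃ n, A n) := by
  have hmono : Monotone A := monotone_nat_of_le_succ hm
  intro r hr r' hr' h
  obtain ⟨i, hi⟩ := Set.mem_iUnion.mp hr
  obtain ⟨j, hj⟩ := Set.mem_iUnion.mp hr'
  exact hf (max i j) r (hmono (le_max_left _ _) hi) r' (hmono (le_max_right _ _) hj) h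

lemma past_node (x : ℕ → O) (g : O) (ch : ℕ → T O) : Past (T.node x g ch) = ⋃ i, Past (ch i) := rfl
lemma past_cons (b : T O) (g : O) (i : ℕ) (x : ℕ → O) :
    Past (T.cons b g i x) = insert (b, g, i, x) (Past b) := rfl

lemma uniq {x x' : ℕ → O} {g g' : O} {ch ch' : ℕ → T O} (h : Valid x g ch) (h' : Valid x' g' ch')
    (Q : Set (Rec O)) (hQ : Func Q) (h1 : Past (T.node x g ch) ⊆ Q) (h2 : Past (T.node x' g' ch') ⊆ Q)
    (i i' : ℕ) (he : ch i = ch' i') : T.node x g ch = T.node x' g' ch' := by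
  have m1 : ∀ j, (ch j, g, j, x) ∈ Q := fun j => h1 (Set.mem_iUnion.mpr ⟨j + 1, (h.2 j).2⟩)
  have m2 : ∀ j, (ch' j, g', j, x') ∈ Q := fun j => h2 (Set.mem_iUnion.mpr ⟨j + 1, (h'.2 j).2⟩)
  have e1 := hQ _ (m1 i) _ (m2 i') (Or.inl he)
  simp only [Prod.mk.injEq] at e1
  obtain ⟨-, rfl, -, rfl⟩ := e1
  have : ch = ch' := by
    funext j
    have e2 := hQ _ (m1 j) _ (m2 j) (Or.inr ⟨rfl, rfl⟩)
    exact (Prod.mk.inj e2).1
  rw [this]

variable [LinearOrder O]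

lemma rk_kid (ub : (ℕ → O) → O) (hub : ∀ f n, f n < ub f) (o : O) (x : ℕ → O) (g : O)
    (ch : ℕ → T O) (i : ℕ) : rk ub o (ch i) < rk ub o (T.node x g ch) :=
  hub (fun i => rk ub o (ch i)) i

lemma rk_past (ub : (ℕ → O) → O) (hub : ∀ f n, f n < ub f) (o : O) (w : T O) :
    ∀ r ∈ Past w, rk ub o r.1 < rk ub o w ∧ r.2.1 < rk ub o w := by
  induction w with
  | nil => intro r hr; exact absurd hr (Set.notMem_empty r)
  | cons b g i x ih =>
    intro r hr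
    have h0 : rk ub o b < rk ub o (T.cons b g i x) := hub (fun n => if n = 0 then rk ub o b else g) 0
    have h1 : g < rk ub o (T.cons b g i x) := hub (fun n => if n = 0 then rk ub o b else g) 1
    rcases hr with rfl | hr
    · exact ⟨h0, h1⟩
    · exact ⟨(ih r hr).1.trans h0, (ih r hr).2.trans h0⟩
  | node x g ch ih =>
    intro r hr
    obtain ⟨i, hi⟩ := Set.mem_iUnion.mp hr
    have h0 := rk_kid ub hub o x g ch i
    exact ⟨(ih i r hi).1.trans h0, (ih i r hi).2.trans h0⟩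

def E (a0 : ℕ → O) (M : ℕ) (u v : T O) : Prop :=
  ∃ x g ch i, u = T.node x g ch ∧ Valid x g ch ∧ v = ch i ∧ Ad M x (lab a0 v)

def GG (a0 : ℕ → O) (M : ℕ) : SimpleGraph (T O) := SimpleGraph.fromRel (E a0 M)

lemma E_rk (ub : (ℕ → O) → O) (hub : ∀ f n, f n < ub f) (o : O) {a0 : ℕ → O} {M : ℕ} {u v : T O}
    (h : E a0 M u v) : rk ub o v < rk ub o u := by
  obtain ⟨x, g, ch, i, rfl, -, rfl, -⟩ := h
  exact rk_kid ub hub o x g ch i

lemma E_past {a0 : ℕ → O} {M : ℕ} {u v : T O} (h : E a0 M u v) :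
    Past v ⊆ Past u ∧ Func (Past u) := by
  obtain ⟨x, g, ch, i, rfl, hv, rfl, -⟩ := h
  exact ⟨Set.subset_iUnion (fun i => Past (ch i)) i, hv.1⟩

lemma sq {a0 : ℕ → O} {M : ℕ} {u u' b w : T O} (h1 : E a0 M u b) (h2 : E a0 M u' b)
    (h3 : E a0 M w u) (h4 : E a0 M w u') : u = u' := by
  have p3 := E_past h3
  have p4 := E_past h4
  obtain ⟨x, g, ch, i, rfl, hv, hb, -⟩ := h1
  obtain ⟨x', g', ch', i', rfl, hv', hb', -⟩ := h2
  exact uniq hv hv' _ p3.2 p3.1 p4.1 i i' (hb.symm.trans hb')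

lemma k2 {a0 : ℕ → O} {M : ℕ} {u u' : T O} (h : {v | E a0 M u v ∧ E a0 M u' v}.Infinite) :
    u = u' := by
  obtain ⟨b, ⟨x, g, ch, i, rfl, hv, hb, -⟩, ⟨x', g', ch', i', rfl, hv', hb', -⟩⟩ := h.nonempty
  refine uniq hv hv' _ hv.1 subset_rfl ?_ i i' (hb.symm.trans hb')
  rw [past_node x' g' ch']
  refine Set.iUnion_subset fun j => ?_
  have hfin : (ch' '' Set.Iio j).Finite := (Set.finite_Iio j).image _
  obtain ⟨v, ⟨hv1, hv2⟩, hv3⟩ := (h.diff hfin).nonempty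
  obtain ⟨x2, g2, ch2, i2, he, -, rfl, -⟩ := hv2
  obtain ⟨-, -, rfl⟩ := T.node.inj he
  have hji : j ≤ i2 := by
    by_contra hc
    exact hv3 ⟨i2, by simpa using hc, rfl⟩
  have hmono : Monotone (fun n => Past (ch' n)) := monotone_nat_of_le_succ fun n => (hv'.2 n).1
  exact (hmono hji).trans (E_past hv1).1

lemma noK (hub : ∀ f : ℕ → O, ∃ b, ∀ n, f n < b) (a0 : ℕ → O) (M : ℕ) (f g : ℕ → T O)
    (hf : Function.Injective f) (hg : Function.Injective g)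
    (h : ∀ i j, E a0 M (f i) (g j) ∨ E a0 M (g j) (f i)) : False := by
  choose ub hub using hub
  have key : ∀ (f g : ℕ → T O), Function.Injective f → Function.Injective g →
      (∀ i j, E a0 M (f i) (g j) ∨ E a0 M (g j) (f i)) → ∀ i i', i ≠ i' →
      {j | E a0 M (f i) (g j)}.Finite ∨ {j | E a0 M (f i') (g j)}.Finite := by
    intro f g hf hg h
    have aux : ∀ i i', i ≠ i' → rk ub (a0 0) (f i) ≤ rk ub (a0 0) (f i') →
        {j | E a0 M (f i) (g j)}.Finite := by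
      intro i i' hne hle
      by_contra hc
      refine hne (hf (k2 (a0 := a0) (M := M) ?_))
      refine Set.Infinite.mono ?_ (Set.Infinite.image hg.injOn hc)
      rintro v ⟨j, hj, rfl⟩
      refine ⟨hj, (h i' j).resolve_right fun h2 => ?_⟩
      exact lt_irrefl _ (((E_rk ub hub (a0 0) hj).trans_le hle).trans (E_rk ub hub (a0 0) h2))
    intro i i' hne
    rcases le_total (rk ub (a0 0) (f i)) (rk ub (a0 0) (f i')) with hle | hle
    · exact Or.inl (aux i i' hne hle)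
    · exact Or.inr (aux i' i hne.symm hle)
  obtain ⟨i0, hi0⟩ : ∃ i0, {j | E a0 M (f i0) (g j)}.Finite :=
    (key f g hf hg h 0 1 (by omega)).elim (fun h => ⟨0, h⟩) (fun h => ⟨1, h⟩)
  have hsub : {j | ¬ {i | E a0 M (g j) (f i)}.Finite}.Subsingleton := by
    intro j hj j' hj'
    by_contra hne
    rcases key g f hg hf (fun i j => (h j i).symm) j j' hne with h1 | h1
    · exact hj h1
    · exact hj' h1
  obtain ⟨j, hj, j', hj', hne⟩ := (hi0.union hsub.finite).infinite_compl.nontrivial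
  simp only [Set.mem_compl_iff, Set.mem_union, Set.mem_setOf_eq, not_or, not_not] at hj hj'
  obtain ⟨k, hk⟩ := (hj.2.union hj'.2).infinite_compl.nonempty
  simp only [Set.mem_compl_iff, Set.mem_union, Set.mem_setOf_eq, not_or] at hk
  exact hne (hg (sq ((h i0 j).resolve_left hj.1) ((h i0 j').resolve_left hj'.1)
    ((h k j).resolve_right hk.1) ((h k j').resolve_right hk.2)))

def Ext (v : T O) (w : T O) (φ : O) : Prop :=
  Past w ⊆ Past v ∧ ∀ r ∈ Past v, r ∉ Past w → φ < r.2.1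

lemma Ext.trans {u v w : T O} {φ φ' : O} (h1 : Ext u v φ') (h2 : Ext v w φ) (h : φ ≤ φ') :
    Ext u w φ := by
  refine ⟨h2.1.trans h1.1, fun r hr hn => ?_⟩
  by_cases hv : r ∈ Past v
  · exact h2.2 r hv hn
  · exact h.trans_lt (h1.2 r hr hv)

lemma Ext.refl (u : T O) (φ : O) : Ext u u φ := ⟨subset_rfl, fun _ h1 h2 => absurd h1 h2⟩

lemma ext_lim (x : ℕ → O) (g : O) (ch : ℕ → T O) (w : T O) (φ : O) (h : ∀ n, Ext (ch n) w φ) :
    Ext (T.node x g ch) w φ := by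
  refine ⟨(h 0).1.trans (Set.subset_iUnion (fun i => Past (ch i)) 0), fun r hr hn => ?_⟩
  obtain ⟨i, hi⟩ := Set.mem_iUnion.mp hr
  exact (h i).2 r hi hn

abbrev Cd (O : Type) := {w : T O // Func (Past w)} × O

def cle (s' s : Cd O) : Prop := Ext s'.1.1 s.1.1 s.2 ∧ s.2 ≤ s'.2

lemma cle_refl (s : Cd O) : cle s s := ⟨Ext.refl _ _, le_rfl⟩

lemma cle_trans (a b c : Cd O) (h1 : cle a b) (h2 : cle b c) : cle a c :=
  ⟨h1.1.trans h2.1 h2.2, h2.2.trans h1.2⟩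

lemma cle_closed (hub : ∀ f : ℕ → O, ∃ b, ∀ n, f n < b) (f : ℕ → Cd O)
    (hf : ∀ n, cle (f (n + 1)) (f n)) : ∃ s, ∀ n, cle s (f n) := by
  obtain ⟨b, hb⟩ := hub (fun n => (f n).2)
  have hm : ∀ n k, cle (f (n + k)) (f n) := by
    intro n k
    induction k with
    | zero => exact cle_refl _
    | succ k ih => exact cle_trans _ _ _ (hf (n + k)) ih
  refine ⟨(⟨T.node (fun _ => b) b (fun n => (f n).1.1),
    func_union _ (fun n => (hf n).1.1) (fun n => (f n).1.2)⟩, b), fun n => ⟨⟨?_, ?_⟩, (hb n).le⟩⟩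
  · exact Set.subset_iUnion (fun i => Past (f i).1.1) n
  · intro r hr hn
    obtain ⟨i, hi⟩ := Set.mem_iUnion.mp hr
    have h1 : r ∈ Past (f (n + i)).1.1 := by
      have := (hm i n).1.1 hi
      rwa [add_comm] at this
    exact (hm n i).1.2 r h1 hn

def WW (a0 : ℕ → O) (M : ℕ) (C : T O → ℕ) (q : ℕ) (x : ℕ → O) (s : Cd O) : Prop :=
  (∃ v, C v = q ∧ lab a0 v = x ∧ Func (Past v) ∧ Ext v s.1.1 s.2) ∧
  ∃ s1, cle s1 s ∧ ∀ u, C u = q → Func (Past u) → Ext u s1.1.1 s1.2 → ¬ Ad M x (lab a0 u)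

lemma star (hub : ∀ f : ℕ → O, ∃ b, ∀ n, f n < b) (a0 : ℕ → O) (M : ℕ)
    (C : (GG a0 M).Coloring ℕ) (x : ℕ → O) (s : Cd O) : ∃ q, WW a0 M C q x s := by
  obtain ⟨ub, hub'⟩ : ∃ ub : (ℕ → O) → O, ∀ f n, f n < ub f := by
    choose ub h using hub
    exact ⟨ub, h⟩
  obtain ⟨γ, hγ⟩ := hub (fun _ => max s.2 (rk ub (a0 0) s.1.1))
  have hγ1 : s.2 < γ := lt_of_le_of_lt (le_max_left _ _) (hγ 0)
  have hγ2 : rk ub (a0 0) s.1.1 < γ := lt_of_le_of_lt (le_max_right _ _) (hγ 0)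
  have pick : ∀ (i : ℕ) (p : T O), ∃ a, (Func (Past p) → Func (Past a)) ∧ Ext a p γ ∧
      ((∃ u, C u = i ∧ Func (Past u) ∧ Ext u p γ ∧ Ad M x (lab a0 u)) →
        C a = i ∧ Ad M x (lab a0 a)) := by
    intro i p
    by_cases h : ∃ u, C u = i ∧ Func (Past u) ∧ Ext u p γ ∧ Ad M x (lab a0 u)
    · obtain ⟨u, h1, h2, h3, h4⟩ := h
      exact ⟨u, fun _ => h2, h3, fun _ => ⟨h1, h4⟩⟩
    · exact ⟨p, id, Ext.refl _ _, fun h1 => absurd h1 h⟩
  choose pk hp1 hp2 hp3 using pick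
  obtain ⟨p, hp0, hp⟩ : ∃ p : ℕ → T O, p 0 = s.1.1 ∧ ∀ i, p (i + 1) = T.cons (pk i (p i)) γ i x :=
    ⟨fun n => Nat.rec s.1.1 (fun i w => T.cons (pk i w) γ i x) n, rfl, fun _ => rfl⟩
  have inv : ∀ i, Func (Past (p i)) ∧ Ext (p i) s.1.1 s.2 ∧
      ∀ r ∈ Past (p i), r.2.1 = γ → r.2.2.1 < i := by
    intro i
    induction i with
    | zero =>
      rw [hp0]
      refine ⟨s.1.2, Ext.refl _ _, fun r hr he => ?_⟩
      have := (rk_past ub hub' (a0 0) _ r hr).2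
      rw [he] at this
      exact absurd (this.trans hγ2) (lt_irrefl _)
    | succ i ih =>
      obtain ⟨i1, i2, i3⟩ := ih
      have j1 := hp1 i _ i1
      have j2 := hp2 i (p i)
      have j3 : ∀ r ∈ Past (pk i (p i)), r.2.1 = γ → r.2.2.1 < i := by
        intro r hr he
        by_cases h : r ∈ Past (p i)
        · exact i3 r h he
        · have := j2.2 r hr h
          rw [he] at this
          exact absurd this (lt_irrefl _)
      have j4 : ∀ r ∈ Past (pk i (p i)),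
          ¬ (r.1 = pk i (p i) ∨ (r.2.1 = γ ∧ r.2.2.1 = i)) := by
        rintro r hr (h | h)
        · have := (rk_past ub hub' (a0 0) _ r hr).1
          rw [h] at this
          exact lt_irrefl _ this
        · have := j3 r hr h.1
          omega
      rw [hp, past_cons]
      refine ⟨?_, ⟨?_, ?_⟩, ?_⟩
      · rintro r (rfl | hr) r' (rfl | hr') h
        · rfl
        · exact absurd (h.imp Eq.symm (fun h => ⟨h.1.symm, h.2.symm⟩)) (j4 r' hr')
        · exact absurd h (j4 r hr)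
        · exact j1 r hr r' hr' h
      · exact (i2.1.trans j2.1).trans (Set.subset_insert _ _)
      · rintro r (rfl | hr) hn
        · exact hγ1
        · exact (j2.trans i2 hγ1.le).2 r hr hn
      · rintro r (rfl | hr) he
        · exact Nat.lt_succ_self _
        · exact (j3 r hr he).trans (Nat.lt_succ_self _)
  have hsub : ∀ i, Past (pk i (p i)) ⊆ Past (pk (i + 1) (p (i + 1))) ∧
      (pk i (p i), γ, i, x) ∈ Past (pk (i + 1) (p (i + 1))) := by
    intro i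
    have h1 := (hp2 (i + 1) (p (i + 1))).1
    refine ⟨fun r hr => h1 ?_, h1 ?_⟩
    · rw [hp, past_cons]; exact Or.inr hr
    · rw [hp, past_cons]; exact Or.inl rfl
  have hval : Valid x γ (fun i => pk i (p i)) :=
    ⟨func_union _ (fun n => (hsub n).1) (fun n => hp1 n _ (inv n).1), hsub⟩
  obtain ⟨v, hv⟩ : ∃ v, v = T.node x γ (fun i => pk i (p i)) := ⟨_, rfl⟩
  refine ⟨C v, ⟨v, rfl, by rw [hv]; rfl, by rw [hv]; exact hval.1, ?_⟩,
    (⟨p (C v), (inv _).1⟩, γ), ⟨(inv _).2.1, hγ1.le⟩, fun u h1 h2 h3 h4 => ?_⟩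
  · rw [hv]
    exact ext_lim _ _ _ _ _ fun n => (hp2 n (p n)).trans (inv n).2.1 hγ1.le
  · obtain ⟨h5, h6⟩ := hp3 (C v) (p (C v)) ⟨u, h1, h2, h3, h4⟩
    have hE : E a0 M v (pk (C v) (p (C v))) := ⟨x, γ, _, C v, hv, hval, rfl, h6⟩
    refine C.valid (v := v) (w := pk (C v) (p (C v))) ?_ h5.symm
    refine (SimpleGraph.fromRel_adj _ _ _).mpr ⟨fun he => ?_, Or.inl hE⟩
    have := E_rk ub hub' (a0 0) hE
    rw [← he] at this
    exact lt_irrefl _ this

lemma not_col (hub : ∀ f : ℕ → O, ∃ b, ∀ n, f n < b) (a0 : ℕ → O) (M : ℕ)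
    (C : (GG a0 M).Coloring ℕ) : False := by
  obtain ⟨q, s, h⟩ := cover (le := cle) hub a0
    ((⟨T.nil, fun r hr => absurd hr (Set.notMem_empty r)⟩, a0 0) : Cd O)
    cle_refl cle_trans (cle_closed hub) (WW a0 M C) (fun x _ s => star hub a0 M C x s)
    (by
      rintro q x s s' ⟨⟨v, h1, h2, h3, h4⟩, s1, h5, h6⟩ h
      exact ⟨⟨v, h1, h2, h3, h4.trans h.1 h.2⟩, s1, cle_trans _ _ _ h5 h, h6⟩) M
  obtain ⟨x, ⟨-, s1, h1, h2⟩, h3⟩ := h s (cle_refl s)
  obtain ⟨y, ⟨⟨v, h4, h5, h6, h7⟩, -⟩, h8⟩ := h3 s1 h1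
  exact h2 v h4 h6 h7 (by rw [h5]; exact h8)

lemma adj_ad {a0 : ℕ → O} {M : ℕ} {u v : T O} (h : (GG a0 M).Adj u v) :
    Ad M (lab a0 u) (lab a0 v) := by
  obtain ⟨-, ⟨x, g, ch, i, rfl, -, -, h1⟩ | ⟨x, g, ch, i, rfl, -, -, h1⟩⟩ :=
    (SimpleGraph.fromRel_adj _ _ _).mp h
  · exact h1
  · exact h1.symm

lemma main (k : ℕ) : ∃ (V : Type) (G : SimpleGraph V),
    IsLeast {c : Cardinal.{0} | ∃ α : Type, #α = c ∧ Nonempty (G.Coloring α)} ℵ₁ ∧
    ¬ (completeBipartiteGraph ℕ ℕ).IsContained G ∧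
    ∀ r : ℕ, 1 ≤ r → r ≤ k → ¬ (SimpleGraph.cycleGraph (2 * r + 1)).IsContained G := by
  obtain ⟨O, _, hO, hub⟩ := exists_om
  have hne : Nonempty O := by
    rw [← Cardinal.mk_ne_zero_iff, hO]
    exact (Cardinal.aleph_pos 1).ne'
  obtain ⟨o⟩ := hne
  refine ⟨T O, GG (fun _ => o) (4 ^ (2 * k + 1 + 3)), ⟨⟨O, hO, ?_⟩, ?_⟩, ?_, ?_⟩
  · choose ub hub using hub
    refine ⟨SimpleGraph.Coloring.mk (rk ub o) fun h => ?_⟩
    obtain ⟨-, h1 | h1⟩ := (SimpleGraph.fromRel_adj _ _ _).mp h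
    · exact (E_rk ub hub o h1).ne'
    · exact (E_rk ub hub o h1).ne
  · rintro c ⟨α, rfl, ⟨C⟩⟩
    by_contra hc
    push Not at hc
    have h1 : #α ≤ ℵ₀ := Order.lt_succ_iff.mp (hc.trans_eq Cardinal.succ_aleph0.symm)
    have : Countable α := Cardinal.mk_le_aleph0_iff.mp h1
    obtain ⟨f, hf⟩ := exists_injective_nat α
    exact not_col hub _ _ (SimpleGraph.Coloring.mk (fun v => f (C v))
      (fun h he => C.valid h (hf he)))
  · rintro ⟨c⟩
    refine noK hub (fun _ => o) (4 ^ (2 * k + 1 + 3)) (fun i => c (Sum.inl i)) (fun j => c (Sum.inr j))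
      (fun i j h => Sum.inl_injective (c.injective h)) (fun i j h => Sum.inr_injective (c.injective h))
      fun i j => ?_
    have : (GG (fun _ => o) (4 ^ (2 * k + 1 + 3))).Adj (c (Sum.inl i)) (c (Sum.inr j)) :=
      c.toHom.map_adj (by simp)
    exact ((SimpleGraph.fromRel_adj _ _ _).mp this).2
  · rintro r h1 h2 ⟨c⟩
    have h3 : (SimpleGraph.cycleGraph (2 * r + 1)).Colorable 2 :=
      bip2 _ (fun v => lab (fun _ => o) (c v)) (2 * k + 1) (by simp; omega)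
        (fun u v h => adj_ad (c.toHom.map_adj h))
    have h4 := SimpleGraph.chromaticNumber_cycleGraph_of_odd (2 * r + 1) (by omega) ⟨r, rfl⟩
    have h5 := h3.chromaticNumber_le
    rw [h4] at h5
    exact absurd h5 (by decide)

end Pool.Agent.H.MP_037fd6_co
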